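import Pool.Agent.R163.FV.Poly

/-!
The arrangement of sides and symmetry axes of a regular polygon, and its multiplicities.
-/

set_option autoImplicit false
open scoped LinearAlgebra.Projectivization
open Finset Real

noncomputable section

namespace Pool.Agent.R163.FV

open Pool.TH330.CSR

/-- `n` lines whose points of multiplicity at least three have the multiplicities `ms` -/
def Realized (n : ℕ) (ms : Multiset ℕ) : Prop :=
  ∃ A : Finset PP, A.card = n ∧ ∀ k, 3 ≤ k → ({p | cnt A p = k} : Set PP).ncard = ms.count k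

lemma Realized.step {n : ℕ} {ms : Multiset ℕ} (h : Realized n ms) (m : ℕ) (hm : m ≠ 0) :
    Realized (n + m) (m ::ₘ ms) := by
  obtain ⟨A, hA, hk⟩ := h
  obtain ⟨A', hA', hk'⟩ := Pool.TH330.CSR.step A m hm
  refine ⟨A', by rw [hA', hA], fun k h3 => ?_⟩
  rw [hk' k h3, hk k h3, Multiset.count_cons]

lemma Realized.steps {n : ℕ} {ms : Multiset ℕ} (h : Realized n ms) (K : Multiset ℕ)
    (hK : ∀ m ∈ K, m ≠ 0) : Realized (n + K.sum) (K + ms) := by
  induction K using Multiset.induction_on with
  | empty => simpa using h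
  | cons a K ih =>
    have h1 := ih fun m hm => hK m (Multiset.mem_cons_of_mem hm)
    have h2 := h1.step a (hK a (Multiset.mem_cons_self a K))
    rw [Multiset.sum_cons, Multiset.cons_add]
    have e : n + (a + K.sum) = n + K.sum + a := by ring
    rw [e]; exact h2

/-- the number of pairs of sides meeting on a given set of axes -/
def pairs (N : ℕ) (J S : Finset ℕ) : Finset (ℕ × ℕ) :=
  (J ×ˢ J).filter (fun x => x.1 < x.2 ∧ (x.1 + x.2) % N ∈ S)

lemma cnt_image_inj {ι : Type} [DecidableEq ι] (f : ι → PP) (J : Finset ι) [DecidableEq PP]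
    (hf : Set.InjOn f J) (q : PP) :
    cnt (J.image f) q = (J.filter (fun j => inc q (f j))).card := by
  unfold cnt
  rw [Finset.filter_image, Finset.card_image_of_injOn]
  · rfl
  · intro a ha b hb h
    rw [Finset.mem_coe, Finset.mem_filter] at ha hb
    exact hf ha.1 hb.1 h

theorem polygon (N : ℕ) (J S : Finset ℕ) (hJ : J ⊆ range N) (hS : S ⊆ range N) (B : ℕ)
    (hB : 3 ≤ B) (hSB : S.card ≤ B) :
    Realized (J.card + B) (B ::ₘ Multiset.replicate (pairs N J S).card 3) := by
  classical
  have hJ' : ∀ {j}, j ∈ J → j < N := fun h => mem_range.1 (hJ h)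
  have hS' : ∀ {j}, j ∈ S → j < N := fun h => mem_range.1 (hS h)
  have injJ : Set.InjOn (side N) J := by
    intro a ha b hb h
    by_contra hne
    exact side_ne (hJ' ha) (hJ' hb) hne h
  have injS : Set.InjOn (axis N) S := by
    intro a ha b hb h
    by_contra hne
    exact axis_ne (hS' ha) (hS' hb) hne h
  set Js := J.image (side N) with hJs
  set Ss := S.image (axis N) with hSs
  have hdis : Disjoint Js Ss := by
    rw [Finset.disjoint_left]
    intro L h1 h2
    obtain ⟨j, _, rfl⟩ := Finset.mem_image.1 h1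
    obtain ⟨s, _, h⟩ := Finset.mem_image.1 h2
    exact side_ne_axis N j s h.symm
  have hJc : Js.card = J.card := Finset.card_image_of_injOn injJ
  have hSc : Ss.card = S.card := Finset.card_image_of_injOn injS
  set A0 := Js ∪ Ss with hA0
  obtain ⟨Bf, hBc, hd, hBi, hB1, -, hB2⟩ := fill A0 ∅ 0 0 (B - S.card)
  set O : PP := pt 0 0 with hO
  have hcnt : ∀ q, cnt (A0 ∪ Bf) q = cnt Js q + cnt Ss q + cnt Bf q := by
    intro q
    rw [cnt_union A0 Bf hd, hA0, cnt_union Js Ss hdis]
  have h1 : ∀ q, cnt Js q ≤ 2 := by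
    intro q
    rw [hJs, cnt_image_inj (side N) J injJ q]
    by_contra hc
    push Not at hc
    obtain ⟨a, b, c, ha, hb, hc, hab, hac, hbc⟩ := Finset.two_lt_card_iff.1 hc
    rw [Finset.mem_filter] at ha hb hc
    have e := vtx_eq (hJ' ha.1) (hJ' hb.1) hab ha.2 hb.2
    have h3 := hc.2
    rw [e] at h3
    rcases inc_vtx_side' (hJ' ha.1) (hJ' hb.1) (hJ' hc.1) h3 with h | h
    · exact hac h.symm
    · exact hbc h.symm
  have h2 : ∀ q, q ≠ O → cnt Ss q ≤ 1 := by
    intro q hq
    rw [hSs, cnt_image_inj (axis N) S injS q, Finset.card_le_one]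
    intro a ha b hb
    rw [Finset.mem_filter] at ha hb
    by_contra hne
    exact hq (uniq ha.2 hb.2 (inc_O_axis N a) (inc_O_axis N b)
      (axis_ne (hS' ha.1) (hS' hb.1) hne))
  have hJO : cnt Js O = 0 := by
    apply cnt_zero_of
    intro L hL
    obtain ⟨j, _, rfl⟩ := Finset.mem_image.1 hL
    exact not_inc_O_side N j
  have hSO : cnt Ss O = S.card := by
    rw [cnt_all_of, hSc]
    intro L hL
    obtain ⟨j, _, rfl⟩ := Finset.mem_image.1 hL
    exact inc_O_axis N j
  have hBO : cnt Bf O = B - S.card := by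
    rw [cnt_all_of Bf O hBi, hBc]
  have hAO : cnt (A0 ∪ Bf) O = B := by
    rw [hcnt, hJO, hSO, hBO]; omega
  -- points other than the centre
  have hge : ∀ q, q ≠ O → 3 ≤ cnt (A0 ∪ Bf) q →
      cnt Js q = 2 ∧ cnt Ss q = 1 ∧ cnt (A0 ∪ Bf) q = 3 := by
    intro q hq h3
    have a := h1 q
    have b := h2 q hq
    have c := hB1 q hq
    have d := hB2 q hq
    have e := hcnt q
    have f : cnt A0 q = cnt Js q + cnt Ss q := by rw [hA0, cnt_union Js Ss hdis]
    have g : 2 ≤ cnt A0 q := by omega
    have := d g
    omega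
  have hset : ∀ q, (q ≠ O ∧ cnt (A0 ∪ Bf) q = 3) ↔
      q ∈ (pairs N J S).image (fun x => vtx N x.1 x.2) := by
    intro q
    rw [Finset.mem_image]
    constructor
    · rintro ⟨hq, h3⟩
      obtain ⟨h4, h5, -⟩ := hge q hq h3.ge
      rw [hJs, cnt_image_inj (side N) J injJ q] at h4
      rw [hSs, cnt_image_inj (axis N) S injS q] at h5
      obtain ⟨a, b, hab, hfab⟩ := Finset.card_eq_two.1 h4
      obtain ⟨s, hs⟩ := Finset.card_eq_one.1 h5
      have ha : a ∈ J.filter (fun j => inc q (side N j)) := by rw [hfab]; simp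
      have hb : b ∈ J.filter (fun j => inc q (side N j)) := by rw [hfab]; simp
      have hs' : s ∈ S.filter (fun j => inc q (axis N j)) := by rw [hs]; simp
      rw [Finset.mem_filter] at ha hb hs'
      rcases lt_or_gt_of_ne hab with h | h
      · have e := vtx_eq (hJ' ha.1) (hJ' hb.1) hab ha.2 hb.2
        refine ⟨(a, b), ?_, e.symm⟩
        unfold pairs
        rw [Finset.mem_filter, Finset.mem_product]
        refine ⟨⟨ha.1, hb.1⟩, h, ?_⟩
        have h6 := hs'.2
        rw [e, inc_vtx_axis' (hS' hs'.1)] at h6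
        change (a + b) % N ∈ S
        rw [h6]; exact hs'.1
      · have e := vtx_eq (hJ' hb.1) (hJ' ha.1) (Ne.symm hab) hb.2 ha.2
        refine ⟨(b, a), ?_, e.symm⟩
        unfold pairs
        rw [Finset.mem_filter, Finset.mem_product]
        refine ⟨⟨hb.1, ha.1⟩, h, ?_⟩
        have h6 := hs'.2
        rw [e, inc_vtx_axis' (hS' hs'.1)] at h6
        change (b + a) % N ∈ S
        rw [h6]; exact hs'.1
    · rintro ⟨⟨a, b⟩, hx, rfl⟩
      unfold pairs at hx
      rw [Finset.mem_filter, Finset.mem_product] at hx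
      obtain ⟨⟨ha, hb⟩, hab, hs⟩ := hx
      simp only at ha hb hab hs ⊢
      have i1 : inc (vtx N a b) (side N a) := by rw [inc_vtx_side]; simp
      have i2 : inc (vtx N a b) (side N b) := by rw [inc_vtx_side]; simp
      have i3 : inc (vtx N a b) (axis N ((a + b) % N)) := (inc_vtx_axis' (hS' hs)).2 rfl
      have hne : vtx N a b ≠ O := by
        intro h; rw [h] at i1; exact not_inc_O_side N a i1
      refine ⟨hne, ?_⟩
      have c1 : 2 ≤ cnt Js (vtx N a b) := by
        rw [hJs, cnt_image_inj (side N) J injJ]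
        have : ({a, b} : Finset ℕ) ⊆ J.filter (fun j => inc (vtx N a b) (side N j)) := by
          intro x hx
          rw [Finset.mem_insert, Finset.mem_singleton] at hx
          rw [Finset.mem_filter]
          rcases hx with rfl | rfl
          · exact ⟨ha, i1⟩
          · exact ⟨hb, i2⟩
        have h := Finset.card_le_card this
        rwa [Finset.card_pair (by omega)] at h
      have c2 : 1 ≤ cnt Ss (vtx N a b) := by
        rw [hSs, cnt_image_inj (axis N) S injS]
        exact Finset.card_pos.2 ⟨(a + b) % N, Finset.mem_filter.2 ⟨hs, i3⟩⟩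
      have c3 : 3 ≤ cnt (A0 ∪ Bf) (vtx N a b) := by rw [hcnt]; omega
      exact (hge _ hne c3).2.2
  have hinj : Set.InjOn (fun x : ℕ × ℕ => vtx N x.1 x.2) (pairs N J S) := by
    rintro ⟨a, b⟩ hx ⟨c, d⟩ hy h
    unfold pairs at hx hy
    rw [Finset.mem_coe, Finset.mem_filter, Finset.mem_product] at hx hy
    obtain ⟨⟨ha, hb⟩, hab, -⟩ := hx
    obtain ⟨⟨hc, hd'⟩, hcd, -⟩ := hy
    simp only at ha hb hab hc hd' hcd h
    have i1 : inc (vtx N c d) (side N c) := by rw [inc_vtx_side]; simp
    have i2 : inc (vtx N c d) (side N d) := by rw [inc_vtx_side]; simp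
    rw [← h] at i1 i2
    have e1 := inc_vtx_side' (hJ' ha) (hJ' hb) (hJ' hc) i1
    have e2 := inc_vtx_side' (hJ' ha) (hJ' hb) (hJ' hd') i2
    rw [Prod.mk.injEq]
    omega
  have hTc : (((pairs N J S).image (fun x => vtx N x.1 x.2) : Finset PP) : Set PP).ncard =
      (pairs N J S).card := by
    rw [Set.ncard_coe_finset, Finset.card_image_of_injOn hinj]
  refine ⟨A0 ∪ Bf, ?_, ?_⟩
  · rw [Finset.card_union_of_disjoint hd, hA0, Finset.card_union_of_disjoint hdis, hJc, hSc, hBc]
    omega
  intro k hk
  rw [Multiset.count_cons, Multiset.count_replicate]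
  by_cases hk3 : k = 3
  · subst hk3
    rw [if_pos rfl]
    by_cases hB3 : 3 = B
    · rw [if_pos hB3]
      have e : ({p | cnt (A0 ∪ Bf) p = 3} : Set PP) =
          insert O (((pairs N J S).image (fun x => vtx N x.1 x.2) : Finset PP) : Set PP) := by
        ext q
        rw [Set.mem_insert_iff, Finset.mem_coe, ← hset q]
        constructor
        · intro h
          by_cases hq : q = O
          · exact Or.inl hq
          · exact Or.inr ⟨hq, h⟩
        · rintro (h | h)
          · change cnt (A0 ∪ Bf) q = 3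
            rw [h, hAO, hB3]
          · exact h.2
      rw [e, Set.ncard_insert_of_notMem, hTc]
      intro h
      rw [Finset.mem_coe, ← hset O] at h
      exact h.1 rfl
    · rw [if_neg hB3]
      have e : ({p | cnt (A0 ∪ Bf) p = 3} : Set PP) =
          (((pairs N J S).image (fun x => vtx N x.1 x.2) : Finset PP) : Set PP) := by
        ext q
        rw [Finset.mem_coe, ← hset q]
        constructor
        · intro h
          refine ⟨?_, h⟩
          rintro rfl
          have h' : cnt (A0 ∪ Bf) O = 3 := h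
          rw [hAO] at h'
          exact hB3 h'.symm
        · intro h; exact h.2
      rw [e, hTc, add_zero]
  · rw [if_neg (by omega)]
    by_cases hkB : k = B
    · rw [if_pos hkB]
      have e : ({p | cnt (A0 ∪ Bf) p = k} : Set PP) = {O} := by
        ext q
        rw [Set.mem_singleton_iff]
        constructor
        · intro h
          by_contra hq
          have h' : cnt (A0 ∪ Bf) q = k := h
          have := (hge q hq (by omega)).2.2
          omega
        · rintro rfl
          change cnt (A0 ∪ Bf) O = k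
          rw [hAO, hkB]
      rw [e, Set.ncard_singleton]
    · rw [if_neg hkB]
      have e : ({p | cnt (A0 ∪ Bf) p = k} : Set PP) = ∅ := by
        ext q
        rw [Set.mem_empty_iff_false, iff_false]
        intro h
        have h' : cnt (A0 ∪ Bf) q = k := h
        by_cases hq : q = O
        · rw [hq, hAO] at h'; exact hkB h'.symm
        · have := (hge q hq (by omega)).2.2
          omega
      rw [e, Set.ncard_empty]

end Pool.Agent.R163.FV
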