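import Pool.Agent.R163.FV.Num

/-!
Realization of prescribed numbers of vertices and of incidences.
-/

set_option autoImplicit false
open scoped LinearAlgebra.Projectivization
open Finset

noncomputable section

namespace Pool.Agent.R163.FV

open Pool.TH330.CSR

theorem Realized.pair {n e f0 : ℕ} {ms : Multiset ℕ} (h : Realized n ms)
    (hlt : ∀ m ∈ ms, m < n) (hn3 : 3 ≤ n)
    (hs : (ms.map (fun k => k - 2)).sum = e)
    (hf : f0 + (ms.map (fun k => tri (k - 2))).sum = n.choose 2) :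
    ∃ A : Finset PP, 3 ≤ A.card ∧ (¬ ∃ p, ∀ L ∈ A, inc p L) ∧ (Pts A).card = f0 ∧
      ∑ p ∈ Pts A, cnt A p = 2 * f0 + e := by
  classical
  obtain ⟨A, hA, hA3⟩ := h
  have W := wnat A ms (fun m hm => by rw [hA]; exact (hlt m hm).le) hA3
  have hp : ¬ ∃ p, ∀ L ∈ A, inc p L := by
    rintro ⟨p, hp⟩
    have h5 : cnt A p = n := by rw [cnt_all_of A p hp, hA]
    have h6 := hA3 n hn3
    rw [Multiset.count_eq_zero_of_notMem (fun hm => lt_irrefl _ (hlt n hm))] at h6
    have hfin : ({p | cnt A p = n} : Set PP).Finite := by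
      refine (Pts A).finite_toSet.subset ?_
      intro p hp
      have hp' : cnt A p = n := hp
      rw [Finset.mem_coe, mem_Pts]; omega
    rw [Set.ncard_eq_zero hfin] at h6
    have : p ∈ ({p | cnt A p = n} : Set PP) := h5
    rw [h6] at this
    exact this
  have h1 : ∑ p ∈ Pts A, (cnt A p - 2) = e := by
    rw [W (fun k => k - 2) (fun k hk => by omega), ← hs]
  have h2 : ∑ p ∈ Pts A, tri (cnt A p - 2) = (ms.map (fun k => tri (k - 2))).sum := by
    rw [W (fun k => tri (k - 2)) (fun k hk => by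
      have : k - 2 = 0 := by omega
      rw [this]; rfl)]
  have h3 := pair_nat A
  have h4 : ∑ p ∈ Pts A, (cnt A p).choose 2 = (Pts A).card + ∑ p ∈ Pts A, tri (cnt A p - 2) := by
    rw [Finset.card_eq_sum_ones, ← Finset.sum_add_distrib]
    refine Finset.sum_congr rfl fun p hp => ?_
    rw [mem_Pts] at hp
    rw [tri_choose _ hp]
  have h5 : ∑ p ∈ Pts A, (cnt A p - 2) + 2 * (Pts A).card = ∑ p ∈ Pts A, cnt A p := by
    rw [mul_comm, ← smul_eq_mul, ← Finset.sum_const, ← Finset.sum_add_distrib]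
    refine Finset.sum_congr rfl fun p hp => ?_
    rw [mem_Pts] at hp
    omega
  rw [h4, h2, hA, ← hf] at h3
  refine ⟨A, by omega, hp, by omega, by omega⟩

theorem bulk (m f0 e : ℕ) (hm : 101 ≤ m) (h1 : m ^ 4 ≤ f0) (h2 : f0 < (m + 1) ^ 4)
    (he : 13 * m ≤ e) (hb : e + 50 * m ^ 3 ≤ f0) :
    ∃ A : Finset PP, 3 ≤ A.card ∧ (¬ ∃ p, ∀ L ∈ A, inc p L) ∧ (Pts A).card = f0 ∧
      ∑ p ∈ Pts A, cnt A p = 2 * f0 + e := by
  obtain ⟨P, B, h, κ, j, s, t, a1, a2, a3, a4, a5, a6, a7, a8, a9, a10⟩ := num m f0 e hm h1 h2 he hb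
  obtain ⟨N, J, S, b1, b2, b3, b4, b5⟩ := pairs_all a1 a2 a3 a4 a5 a6
  have q1 := polygon N J S b1 b2 B a7 b4
  rw [b3, b5] at q1
  set K : Multiset ℕ := (j + 3) ::ₘ (Multiset.replicate s 4 +
    Multiset.replicate (κ - (j + 3 + 4 * s)) 1) with hK
  have hKs : K.sum = κ := by
    rw [hK, Multiset.sum_cons, Multiset.sum_add, Multiset.sum_replicate, Multiset.sum_replicate,
      smul_eq_mul, smul_eq_mul]
    omega
  have q2 := q1.steps K (by
    intro m hm
    rw [hK, Multiset.mem_cons, Multiset.mem_add] at hm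
    rcases hm with rfl | hm | hm
    · omega
    · rw [Multiset.eq_of_mem_replicate hm]; omega
    · rw [Multiset.eq_of_mem_replicate hm]; omega)
  rw [hKs] at q2
  refine q2.pair ?_ (by omega) ?_ ?_
  · intro m hm
    rw [Multiset.mem_add, hK, Multiset.mem_cons, Multiset.mem_add, Multiset.mem_cons] at hm
    rcases hm with (rfl | hm | hm) | rfl | hm
    · omega
    · rw [Multiset.eq_of_mem_replicate hm]; omega
    · rw [Multiset.eq_of_mem_replicate hm]; omega
    · omega
    · rw [Multiset.eq_of_mem_replicate hm]; omega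
  · rw [hK]
    simp only [Multiset.map_add, Multiset.map_cons, Multiset.map_replicate, Multiset.sum_add,
      Multiset.sum_cons, Multiset.sum_replicate, smul_eq_mul]
    omega
  · rw [hK, ← a10]
    have t0 : tri (1 - 2) = 0 := rfl
    have t1 : tri (3 - 2) = 2 := rfl
    have t2 : tri (4 - 2) = 5 := rfl
    have t3 : j + 3 - 2 = j + 1 := by omega
    simp only [Multiset.map_add, Multiset.map_cons, Multiset.map_replicate, Multiset.sum_add,
      Multiset.sum_cons, Multiset.sum_replicate, smul_eq_mul, t0, t1, t2, t3]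
    ring

end Pool.Agent.R163.FV
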