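import Pool.Agent.R163.FV.Pairs

/-!
The choice of parameters.
-/

set_option autoImplicit false
open Finset

namespace Pool.Agent.R163.FV

open Pool.TH330.CSR

lemma exP (c f : ℕ) (h : c ≤ f) : ∃ P g : ℕ, 2 * P * P + g = f + P ∧ c ≤ g ∧ g ≤ c + 4 * P := by
  induction f, h using Nat.le_induction with
  | base => exact ⟨0, c, by ring, le_rfl, by omega⟩
  | succ f hf ih =>
    obtain ⟨P, g, h1, h2, h3⟩ := ih
    by_cases h : g + 1 ≤ c + 4 * P
    · exact ⟨P, g + 1, by omega, by omega, h⟩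
    · refine ⟨P + 1, c, ?_, le_rfl, by omega⟩
      have : g = c + 4 * P := by omega
      subst this
      have e : 2 * (P + 1) * (P + 1) = 2 * P * P + 4 * P + 2 := by ring
      rw [e]; omega

lemma exK (n : ℕ) (hn : 2 ≤ n) (R : ℕ) : ∃ κ r : ℕ, 2 * κ * n + κ * κ = 2 * R + 2 * r + κ ∧
    r + 2 ≤ n + κ := by
  induction R with
  | zero => exact ⟨0, 0, by ring, by omega⟩
  | succ R ih =>
    obtain ⟨κ, r, h1, h2⟩ := ih
    rcases Nat.eq_zero_or_pos r with h | h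
    · subst h
      refine ⟨κ + 1, n + κ - 1, ?_, by omega⟩
      have e : 2 * (κ + 1) * n + (κ + 1) * (κ + 1) = 2 * κ * n + κ * κ + 2 * n + 2 * κ + 1 := by ring
      rw [e]; omega
    · exact ⟨κ, r - 1, by omega, by omega⟩

lemma exJ (r : ℕ) : ∃ j s : ℕ, 2 * r = j * j + j + 2 * s ∧ s ≤ j := by
  induction r with
  | zero => exact ⟨0, 0, by ring, le_rfl⟩
  | succ r ih =>
    obtain ⟨j, s, h1, h2⟩ := ih
    by_cases h : s + 1 ≤ j
    · exact ⟨j, s + 1, by omega, h⟩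
    · refine ⟨j + 1, 0, ?_, by omega⟩
      have : s = j := by omega
      subst this
      have e : (s + 1) * (s + 1) = s * s + 2 * s + 1 := by ring
      rw [e]; omega

lemma two_tri (k : ℕ) : 2 * tri k = k * (k + 3) := by
  unfold tri
  have : Even (k * (k + 3)) := by
    rcases Nat.even_or_odd k with h | h
    · exact h.mul_right _
    · exact Even.mul_left (h.add_odd (by decide)) _
  exact Nat.two_mul_div_two_of_even this

lemma two_choose (n : ℕ) : 2 * n.choose 2 + n = n * n := by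
  induction n with
  | zero => rfl
  | succ n ih =>
    have h : (n + 1).choose 2 = n.choose 1 + n.choose 2 := Nat.choose_succ_succ' n 1
    rw [h, Nat.choose_one_right]
    have : (n + 1) * (n + 1) = n * n + 2 * n + 1 := by ring
    rw [this]; omega

lemma num (m f0 e : ℕ) (hm : 101 ≤ m) (h1 : m ^ 4 ≤ f0) (h2 : f0 < (m + 1) ^ 4)
    (he : 13 * m ≤ e) (hb : e + 50 * m ^ 3 ≤ f0) :
    ∃ P B h κ j s t : ℕ, 1 ≤ h ∧ h < P ∧ 2 * P ≤ h * (h + 3) ∧ h ≤ B ∧ B ≤ 2 * P - 2 * h + 2 ∧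
      t ≤ B * (P - h) ∧ 3 ≤ B ∧ j + 3 + 4 * s ≤ κ ∧ t + (B - 2) + (j + 1) + 2 * s = e ∧
      f0 + (tri (B - 2) + t * 2 + tri (j + 1) + s * 5) = (2 * P + B + κ).choose 2 := by
  have m2 : 101 * m ≤ m ^ 2 := by nlinarith
  have m3 : 101 * m ^ 2 ≤ m ^ 3 := by nlinarith [Nat.zero_le (m ^ 2)]
  have m4 : 101 * m ^ 3 ≤ m ^ 4 := by nlinarith [Nat.zero_le (m ^ 3)]
  obtain ⟨P, g, p1, p2, p3⟩ := exP (45 * m ^ 3) f0 (by omega)
  have hP1 : m ^ 2 ≤ 2 * P := by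
    by_contra hc
    push Not at hc
    have hc' : 2 * P + 1 ≤ m ^ 2 := hc
    have a1 : (2 * P + 1) * (2 * P + 1) ≤ m ^ 2 * m ^ 2 := Nat.mul_le_mul hc' hc'
    have a2 : m ^ 2 * m ^ 2 = m ^ 4 := by ring
    have a3 : (2 * P + 1) * (2 * P + 1) = 2 * (2 * P * P) + 4 * P + 1 := by ring
    omega
  have hP2 : 4 * P ≤ 3 * m ^ 2 := by
    by_contra hc
    push Not at hc
    obtain ⟨Q, hQ⟩ : ∃ Q, 4 * P = Q + 1 := ⟨4 * P - 1, by omega⟩
    have hc' : 3 * m ^ 2 ≤ Q := by omega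
    have a1 : (3 * m ^ 2) * (3 * m ^ 2) ≤ Q * Q := Nat.mul_le_mul hc' hc'
    have a2 : (3 * m ^ 2) * (3 * m ^ 2) = 9 * m ^ 4 := by ring
    have a3 : Q * Q + 2 * Q + 1 = 8 * (2 * P * P) := by
      have : 8 * (2 * P * P) = (4 * P) * (4 * P) := by ring
      rw [this, hQ]; ring
    have a4 : (m + 1) ^ 4 = m ^ 4 + 4 * m ^ 3 + 6 * m ^ 2 + 4 * m + 1 := by ring
    omega
  obtain ⟨h, hh1, hh2⟩ : ∃ h, 5 * m ≤ 4 * h ∧ 4 * h ≤ 5 * m + 3 := ⟨(5 * m + 3) / 4, by omega, by omega⟩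
  obtain ⟨X, hX⟩ : ∃ X, X + 40 * m ^ 3 = g + 2 * e + 3 := ⟨g + 2 * e + 3 - 40 * m ^ 3, by omega⟩
  obtain ⟨B, R1, hB, hR1⟩ : ∃ B R1, X = B * (2 * P + 2) + R1 ∧ R1 < 2 * P + 2 :=
    ⟨X / (2 * P + 2), X % (2 * P + 2), by
      have := Nat.div_add_mod X (2 * P + 2)
      rw [mul_comm]; exact this.symm, Nat.mod_lt _ (by omega)⟩
  have hhB : h ≤ B := by
    by_contra hc
    push Not at hc
    have a1 : (B + 1) * (2 * P + 2) ≤ h * (2 * P + 2) := Nat.mul_le_mul_right _ hc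
    have a2 : (B + 1) * (2 * P + 2) = B * (2 * P + 2) + (2 * P + 2) := by ring
    have a3 : (4 * h) * (4 * P + 4) ≤ (5 * m + 3) * (3 * m ^ 2 + 4) :=
      Nat.mul_le_mul hh2 (by omega)
    have a4 : (5 * m + 3) * (3 * m ^ 2 + 4) = 15 * m ^ 3 + 9 * m ^ 2 + 20 * m + 12 := by ring
    have a5 : (4 * h) * (4 * P + 4) = 8 * (h * (2 * P + 2)) := by ring
    omega
  have hBh : B + 2 * h ≤ 2 * P := by
    by_contra hc
    push Not at hc
    have a1 : (2 * P + 1) * (2 * P + 2) ≤ (B + 2 * h) * (2 * P + 2) := Nat.mul_le_mul_right _ hc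
    have a2 : (B + 2 * h) * (2 * P + 2) = B * (2 * P + 2) + 4 * (h * P) + 4 * h := by ring
    have a3 : (2 * P + 1) * (2 * P + 2) = 2 * (2 * P * P) + 6 * P + 2 := by ring
    have a4 : (4 * h) * (4 * P) ≤ (5 * m + 3) * (3 * m ^ 2) := Nat.mul_le_mul hh2 hP2
    have a5 : (5 * m + 3) * (3 * m ^ 2) = 15 * m ^ 3 + 9 * m ^ 2 := by ring
    have a6 : (4 * h) * (4 * P) = 16 * (h * P) := by ring
    omega
  have hPh : 2 * P ≤ h * (h + 3) := by
    have a1 : (5 * m) * (5 * m) ≤ (4 * h) * (4 * h) := Nat.mul_le_mul hh1 hh1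
    have a2 : (5 * m) * (5 * m) = 25 * m ^ 2 := by ring
    have a3 : (4 * h) * (4 * h) = 16 * (h * h) := by ring
    have a4 : h * (h + 3) = h * h + 3 * h := by ring
    omega
  obtain ⟨κ, r, k1, k2⟩ := exK (2 * P + B) (by omega) (40 * m ^ 3 + R1)
  have hκ1 : 13 * m + 3 ≤ κ := by
    by_contra hc
    push Not at hc
    have hc' : κ ≤ 13 * m + 2 := by omega
    have hn : 2 * P + B ≤ 3 * m ^ 2 := by omega
    have a1 : κ * (2 * P + B) ≤ (13 * m + 2) * (3 * m ^ 2) := Nat.mul_le_mul hc' hn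
    have a2 : (13 * m + 2) * (3 * m ^ 2) = 39 * m ^ 3 + 6 * m ^ 2 := by ring
    have a3 : κ * κ ≤ (13 * m + 2) * (13 * m + 2) := Nat.mul_le_mul hc' hc'
    have a4 : (13 * m + 2) * (13 * m + 2) = 169 * m ^ 2 + 52 * m + 4 := by ring
    have a5 : 2 * κ * (2 * P + B) = 2 * (κ * (2 * P + B)) := by ring
    omega
  have hκ2 : κ ≤ 40 * m + 2 := by
    by_contra hc
    push Not at hc
    obtain ⟨c, hcc⟩ : ∃ c, κ = 40 * m + 3 + c := ⟨κ - (40 * m + 3), by omega⟩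
    have a0 : (40 * m) * m ^ 2 ≤ (40 * m) * (2 * P + B) := Nat.mul_le_mul_left _ (by omega)
    have a1 : (40 * m) * m ^ 2 = 40 * m ^ 3 := by ring
    have a2 : 2 * κ * (2 * P + B) = 2 * ((40 * m) * (2 * P + B)) + 6 * (2 * P + B) +
      2 * (c * (2 * P + B)) := by rw [hcc]; ring
    have a3 : 3 * κ ≤ κ * κ := Nat.mul_le_mul_right _ (by omega)
    omega
  obtain ⟨j, s, j1, j2⟩ := exJ r
  have hj : 5 * j ≤ 13 * m := by
    by_contra hc
    push Not at hc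
    have hc' : 13 * m + 1 ≤ 5 * j := hc
    have a1 : (13 * m + 1) * (13 * m + 1) ≤ (5 * j) * (5 * j) := Nat.mul_le_mul hc' hc'
    have a2 : (13 * m + 1) * (13 * m + 1) = 169 * m ^ 2 + 26 * m + 1 := by ring
    have a3 : (5 * j) * (5 * j) = 25 * (j * j) := by ring
    omega
  have ht0 : (B - 2) + (j + 1) + 2 * s ≤ e := by
    by_contra hc
    push Not at hc
    obtain ⟨e', he'⟩ : ∃ e', e = 13 * m + e' := ⟨e - 13 * m, by omega⟩
    have a0 : 26 * m + 5 + 5 * e' ≤ 5 * B := by omega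
    have a1 : (26 * m + 5 + 5 * e') * (m ^ 2 + 2) ≤ (5 * B) * (2 * P + 2) :=
      Nat.mul_le_mul a0 (by omega)
    have a2 : (26 * m + 5 + 5 * e') * (m ^ 2 + 2) =
      26 * m ^ 3 + 5 * m ^ 2 + 52 * m + 10 + 5 * (e' * m ^ 2) + 10 * e' := by ring
    have a3 : (5 * B) * (2 * P + 2) = 5 * (B * (2 * P + 2)) := by ring
    omega
  obtain ⟨t, ht⟩ : ∃ t, t + (B - 2) + (j + 1) + 2 * s = e :=
    ⟨e - ((B - 2) + (j + 1) + 2 * s), by omega⟩
  refine ⟨P, B, h, κ, j, s, t, by omega, by omega, hPh, hhB, by omega, ?_, by omega, by omega,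
    ht, ?_⟩
  · obtain ⟨P', hP'⟩ : ∃ P', P = h + P' := ⟨P - h, by omega⟩
    have e1 : P - h = P' := by omega
    rw [e1]
    have a1 : B * (2 * P + 2) = 2 * (B * P') + 2 * (h * B) + 2 * B := by rw [hP']; ring
    have a2 : (5 * m + 3) * (2 * B + 5 * m) ≤ (5 * m + 3) * (3 * m ^ 2) :=
      Nat.mul_le_mul_left _ (by omega)
    have a3 : (5 * m + 3) * (2 * B + 5 * m) = (5 * m + 3) * (2 * B) + 25 * m ^ 2 + 15 * m := by ring
    have a4 : (5 * m + 3) * (3 * m ^ 2) = 15 * m ^ 3 + 9 * m ^ 2 := by ring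
    have a5 : (4 * h) * (2 * B) ≤ (5 * m + 3) * (2 * B) := Nat.mul_le_mul_right _ hh2
    have a6 : (4 * h) * (2 * B) = 8 * (h * B) := by ring
    omega
  · obtain ⟨b, hb'⟩ : ∃ b, B = b + 2 := ⟨B - 2, by omega⟩
    have e2 : B - 2 = b := by omega
    rw [e2] at ht ⊢
    have c1 : 2 * tri b = b * (b + 3) := two_tri b
    have c2 : 2 * tri (j + 1) = (j + 1) * (j + 1 + 3) := two_tri (j + 1)
    have c3 := two_choose (2 * P + B + κ)
    have key : 2 * f0 + (b * (b + 3) + 4 * t + (j + 1) * (j + 1 + 3) + 10 * s) +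
        (2 * P + B + κ) = (2 * P + B + κ) * (2 * P + B + κ) := by
      rw [hb'] at hB k1 ⊢
      zify at p1 hX hB k1 j1 ht ⊢
      linear_combination (-2) * p1 + (-2) * hX + 2 * hB - k1 - j1 + 4 * ht
    omega

end Pool.Agent.R163.FV
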