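import Pool.Agent.R163.FV.Arr

/-!
Prescribing the number of pairs of sides that meet on the axes.
-/

set_option autoImplicit false
open Finset

namespace Pool.Agent.R163.FV

/-- every number up to `V + (V - 1) + ... ` (`b` terms) is a sum of at most `b` distinct numbers
from `1, ..., V` -/
lemma greedy (b : ℕ) : ∀ V t : ℕ, b ≤ V → t ≤ ∑ i ∈ range b, (V - i) →
    ∃ I ⊆ Icc 1 V, I.card ≤ b ∧ ∑ i ∈ I, i = t := by
  induction b with
  | zero =>
    intro V t _ ht
    refine ⟨∅, by simp, by simp, ?_⟩
    simp at ht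
    simp [ht]
  | succ b ih =>
    intro V t hb ht
    by_cases h : t ≤ V
    · rcases Nat.eq_zero_or_pos t with h0 | h0
      · exact ⟨∅, by simp, by simp, by simp [h0]⟩
      · exact ⟨{t}, by simp; omega, by simp, by simp⟩
    · push Not at h
      rw [Finset.sum_range_succ'] at ht
      have e : ∑ k ∈ range b, (V - (k + 1)) = ∑ k ∈ range b, (V - 1 - k) := by
        apply Finset.sum_congr rfl
        intro k _
        omega
      rw [e] at ht
      obtain ⟨I, h1, h2, h3⟩ := ih (V - 1) (t - V) (by omega) (by omega)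
      refine ⟨insert V I, ?_, ?_, ?_⟩
      · intro x hx
        rw [Finset.mem_insert] at hx
        rw [Finset.mem_Icc]
        rcases hx with rfl | hx
        · omega
        · have := Finset.mem_Icc.1 (h1 hx); omega
      · exact (Finset.card_insert_le _ _).trans (by omega)
      · rw [Finset.sum_insert, h3]
        · omega
        · intro hV
          have := Finset.mem_Icc.1 (h1 hV)
          omega

/-- the pairs with a given sum -/
def row (N : ℕ) (J : Finset ℕ) (s : ℕ) : Finset (ℕ × ℕ) :=
  (J ×ˢ J).filter (fun x => x.1 < x.2 ∧ (x.1 + x.2) % N = s)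

lemma card_pairs (N : ℕ) (J S : Finset ℕ) : (pairs N J S).card = ∑ s ∈ S, (row N J s).card := by
  rw [Finset.card_eq_sum_card_fiberwise (f := fun x : ℕ × ℕ => (x.1 + x.2) % N) (t := S)]
  · apply Finset.sum_congr rfl
    intro s hs
    congr 1
    unfold pairs row
    rw [Finset.filter_filter]
    apply Finset.filter_congr
    intro x _
    constructor
    · rintro ⟨⟨a, _⟩, b⟩; exact ⟨a, b⟩
    · rintro ⟨a, b⟩; exact ⟨⟨a, by rw [b]; exact hs⟩, b⟩
  · intro x hx
    unfold pairs at hx
    rw [Finset.mem_coe, Finset.mem_filter] at hx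
    exact hx.2.2

/-- the pairs with a given sum in an interval -/
lemma card_row {N d e s : ℕ} (he : e ≤ N) (hs : s < N) :
    (row N (Ico d e) s).card =
      ((Ico d e).filter (fun j => (2 * j < s ∧ s < j + e ∧ d + j ≤ s) ∨
        (2 * j < s + N ∧ s + N < j + e))).card := by
  apply Finset.card_bij (fun x _ => x.1)
  · intro x hx
    unfold row at hx
    rw [Finset.mem_filter, Finset.mem_product, Finset.mem_Ico, Finset.mem_Ico] at hx
    obtain ⟨⟨h1, h2⟩, h3, h4⟩ := hx
    rw [Finset.mem_filter, Finset.mem_Ico]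
    refine ⟨h1, ?_⟩
    have h5 := Nat.div_add_mod (x.1 + x.2) N
    have h6 : (x.1 + x.2) / N < 2 := by
      rw [Nat.div_lt_iff_lt_mul (by omega)]; omega
    rw [h4] at h5
    interval_cases hq : (x.1 + x.2) / N
    · left; omega
    · right; omega
  · intro x hx y hy h
    unfold row at hx hy
    rw [Finset.mem_filter, Finset.mem_product, Finset.mem_Ico, Finset.mem_Ico] at hx hy
    obtain ⟨⟨h1, h2⟩, h3, h4⟩ := hx
    obtain ⟨⟨g1, g2⟩, g3, g4⟩ := hy
    have h5 := Nat.div_add_mod (x.1 + x.2) N
    have g5 := Nat.div_add_mod (y.1 + y.2) N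
    rw [h4] at h5
    rw [g4] at g5
    change x.1 = y.1 at h
    have h6 : (x.1 + x.2) / N < 2 := by
      rw [Nat.div_lt_iff_lt_mul (by omega)]; omega
    have g6 : (y.1 + y.2) / N < 2 := by
      rw [Nat.div_lt_iff_lt_mul (by omega)]; omega
    apply Prod.ext h
    interval_cases hq : (x.1 + x.2) / N <;> interval_cases hq' : (y.1 + y.2) / N <;> omega
  · intro j hj
    rw [Finset.mem_filter, Finset.mem_Ico] at hj
    obtain ⟨hj1, hj2⟩ := hj
    unfold row
    rcases hj2 with h | h
    · refine ⟨(j, s - j), ?_, rfl⟩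
      rw [Finset.mem_filter, Finset.mem_product, Finset.mem_Ico, Finset.mem_Ico]
      refine ⟨⟨hj1, ?_⟩, ?_, ?_⟩
      · simp only; omega
      · simp only; omega
      · simp only
        rw [show j + (s - j) = s by omega, Nat.mod_eq_of_lt hs]
    · refine ⟨(j, s + N - j), ?_, rfl⟩
      rw [Finset.mem_filter, Finset.mem_product, Finset.mem_Ico, Finset.mem_Ico]
      refine ⟨⟨hj1, ?_⟩, ?_, ?_⟩
      · simp only; omega
      · simp only; omega
      · simp only
        rw [show j + (s + N - j) = s + N by omega, Nat.add_mod_right, Nat.mod_eq_of_lt hs]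

/-- regime of few pairs -/
lemma pairs_small {P b t : ℕ} (hb : b + 1 ≤ P) (ht : t ≤ ∑ i ∈ range b, (P - 1 - i)) :
    ∃ (N : ℕ) (J S : Finset ℕ), J ⊆ range N ∧ S ⊆ range N ∧ J.card = 2 * P ∧ S.card ≤ b ∧
      (pairs N J S).card = t := by
  obtain ⟨I, h1, h2, h3⟩ := greedy b (P - 1) t (by omega) ht
  refine ⟨4 * P, Ico 0 (2 * P), I.image (fun v => 2 * v), ?_, ?_, by simp, ?_, ?_⟩
  · intro x hx
    rw [Finset.mem_Ico] at hx
    rw [Finset.mem_range]; omega
  · intro x hx
    obtain ⟨v, hv, rfl⟩ := Finset.mem_image.1 hx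
    have := Finset.mem_Icc.1 (h1 hv)
    rw [Finset.mem_range]; omega
  · exact Finset.card_image_le.trans h2
  · rw [card_pairs, Finset.sum_image (by intro a _ b _ h; simp only at h; omega), ← h3]
    apply Finset.sum_congr rfl
    intro v hv
    have hv' := Finset.mem_Icc.1 (h1 hv)
    rw [card_row (by omega) (by omega)]
    have e : (Ico 0 (2 * P)).filter (fun j => (2 * j < 2 * v ∧ 2 * v < j + 2 * P ∧ 0 + j ≤ 2 * v) ∨
        (2 * j < 2 * v + 4 * P ∧ 2 * v + 4 * P < j + 2 * P)) = range v := by
      ext j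
      rw [Finset.mem_filter, Finset.mem_Ico, Finset.mem_range]
      omega
    rw [e, Finset.card_range]

/-- regime of many pairs -/
lemma pairs_large {P h B t : ℕ} (h0 : 1 ≤ h) (hP : h < P) (hh : 2 * P ≤ h * (h + 3))
    (hB : B ≤ 2 * P - 2 * h + 2) (ht1 : h * (P - h) ≤ t) (ht2 : t ≤ B * (P - h)) :
    ∃ (N : ℕ) (J S : Finset ℕ), J ⊆ range N ∧ S ⊆ range N ∧ J.card = 2 * P ∧ S.card ≤ B ∧
      (pairs N J S).card = t := by
  set R := P - h with hR
  have hR0 : 0 < R := by omega
  set b := t / R with hb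
  set u := t % R with hu
  have htb : R * b + u = t := Nat.div_add_mod t R
  have hu' : u < R := Nat.mod_lt _ hR0
  have hbh : h ≤ b := by
    rw [hb, Nat.le_div_iff_mul_le hR0]; exact ht1
  have hbB : b ≤ B := by
    rw [hb]
    exact Nat.div_le_of_le_mul (by rw [mul_comm]; exact ht2)
  have hsum : ∑ i ∈ range h, (h - i) = h * (h + 1) / 2 := by
    have h1 := Finset.sum_range_reflect (fun i => i + 1) h
    have h2 : ∑ j ∈ range h, (h - 1 - j + 1) = ∑ i ∈ range h, (h - i) := by
      apply Finset.sum_congr rfl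
      intro i hi
      rw [Finset.mem_range] at hi
      omega
    rw [h2] at h1
    rw [h1, Finset.sum_add_distrib, Finset.sum_const, Finset.card_range, smul_eq_mul, mul_one,
      Finset.sum_range_id]
    have h3 : h * (h + 1) = h * (h - 1) + h * 2 := by
      obtain ⟨k, rfl⟩ := Nat.exists_eq_add_of_le h0
      rw [show 1 + k - 1 = k by omega]; ring
    rw [h3, Nat.add_mul_div_right _ _ (by norm_num)]
  obtain ⟨I, h1, h2, h3⟩ := greedy h h u le_rfl (by
    rw [hsum, Nat.le_div_iff_mul_le (by norm_num)]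
    have e : h * (h + 3) = h * (h + 1) + 2 * h := by ring
    omega)
  set N := 2 * P + 2 * h - 1 with hN
  obtain ⟨S2, hS2, hS2c⟩ := Finset.exists_subset_card_eq (s := Ico (4 * h - 3) N) (n := b - I.card)
    (by rw [Nat.card_Ico]; omega)
  have hdisj : Disjoint (I.image (fun v => 2 * (v - 1))) S2 := by
    rw [Finset.disjoint_left]
    intro x hx hx2
    obtain ⟨v, hv, rfl⟩ := Finset.mem_image.1 hx
    have := Finset.mem_Icc.1 (h1 hv)
    have := Finset.mem_Ico.1 (hS2 hx2)
    omega
  have hIc : (I.image (fun v => 2 * (v - 1))).card = I.card := by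
    apply Finset.card_image_of_injOn
    intro a ha b hb h
    have := Finset.mem_Icc.1 (h1 ha)
    have := Finset.mem_Icc.1 (h1 hb)
    simp only at h
    omega
  refine ⟨N, Ico (2 * h - 1) N, I.image (fun v => 2 * (v - 1)) ∪ S2, ?_, ?_, ?_, ?_, ?_⟩
  · intro x hx
    rw [Finset.mem_Ico] at hx
    rw [Finset.mem_range]; omega
  · intro x hx
    rcases Finset.mem_union.1 hx with hx | hx
    · obtain ⟨v, hv, rfl⟩ := Finset.mem_image.1 hx
      have := Finset.mem_Icc.1 (h1 hv)
      rw [Finset.mem_range]; omega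
    · have := Finset.mem_Ico.1 (hS2 hx)
      rw [Finset.mem_range]; omega
  · rw [Nat.card_Ico]; omega
  · rw [Finset.card_union_of_disjoint hdisj, hIc, hS2c]; omega
  · rw [card_pairs, Finset.sum_union hdisj, Finset.sum_image]
    · have a1 : ∀ v ∈ I, (row N (Ico (2 * h - 1) N) (2 * (v - 1))).card = R + v := by
        intro v hv
        have hv' := Finset.mem_Icc.1 (h1 hv)
        rw [card_row le_rfl (by omega)]
        have e : (Ico (2 * h - 1) N).filter (fun j => (2 * j < 2 * (v - 1) ∧
            2 * (v - 1) < j + N ∧ 2 * h - 1 + j ≤ 2 * (v - 1)) ∨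
            (2 * j < 2 * (v - 1) + N ∧ 2 * (v - 1) + N < j + N)) = Ico (2 * h - 1) (P + h + v - 1) := by
          ext j
          rw [Finset.mem_filter, Finset.mem_Ico, Finset.mem_Ico]
          omega
        rw [e, Nat.card_Ico]
        omega
      have a2 : ∀ s ∈ S2, (row N (Ico (2 * h - 1) N) s).card = R := by
        intro s hs
        have hs' := Finset.mem_Ico.1 (hS2 hs)
        rw [card_row le_rfl (by omega)]
        have e : (Ico (2 * h - 1) N).filter (fun j => (2 * j < s ∧ s < j + N ∧ 2 * h - 1 + j ≤ s) ∨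
            (2 * j < s + N ∧ s + N < j + N)) = Ico (2 * h - 1) ((s + 1) / 2) ∪
              Ico (s + 1) ((s + N + 1) / 2) := by
          ext j
          rw [Finset.mem_filter, Finset.mem_union, Finset.mem_Ico, Finset.mem_Ico, Finset.mem_Ico]
          omega
        rw [e, Finset.card_union_of_disjoint, Nat.card_Ico, Nat.card_Ico]
        · omega
        · rw [Finset.disjoint_left]
          intro x hx hx2
          rw [Finset.mem_Ico] at hx hx2
          omega
      rw [Finset.sum_congr rfl a1, Finset.sum_congr rfl a2, Finset.sum_add_distrib, h3,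
        Finset.sum_const, Finset.sum_const, hS2c, smul_eq_mul, smul_eq_mul]
      have e : I.card * R + (b - I.card) * R = R * b := by
        rw [← Nat.add_mul, mul_comm]
        congr 1
        omega
      omega
    · intro a ha b hb h
      have := Finset.mem_Icc.1 (h1 ha)
      have := Finset.mem_Icc.1 (h1 hb)
      simp only at h
      omega

lemma pairs_all {P h B t : ℕ} (h0 : 1 ≤ h) (hP : h < P) (hh : 2 * P ≤ h * (h + 3))
    (hhB : h ≤ B) (hB : B ≤ 2 * P - 2 * h + 2) (ht2 : t ≤ B * (P - h)) :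
    ∃ (N : ℕ) (J S : Finset ℕ), J ⊆ range N ∧ S ⊆ range N ∧ J.card = 2 * P ∧ S.card ≤ B ∧
      (pairs N J S).card = t := by
  by_cases ht1 : h * (P - h) ≤ t
  · exact pairs_large h0 hP hh hB ht1 ht2
  · push Not at ht1
    have hs : h * (P - h) ≤ ∑ i ∈ range h, (P - 1 - i) := by
      have h1 : ∑ i ∈ range h, (P - h) ≤ ∑ i ∈ range h, (P - 1 - i) := by
        apply Finset.sum_le_sum
        intro i hi
        rw [Finset.mem_range] at hi
        omega
      rwa [Finset.sum_const, Finset.card_range, smul_eq_mul] at h1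
    obtain ⟨N, J, S, a, b, c, d, e⟩ := pairs_small (P := P) (b := h) (t := t) (by omega) (by omega)
    exact ⟨N, J, S, a, b, c, d.trans hhB, e⟩

end Pool.Agent.R163.FV
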