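import Pool.Agent.TH330.CSR.FVec
import Pool.Agent.TH330.CSR.Full

/-!
Sides and symmetry axes of a regular polygon in the real projective plane.
-/

set_option autoImplicit false
open scoped LinearAlgebra.Projectivization
open Finset Real

noncomputable section

namespace Pool.Agent.R163.FV

open Pool.TH330.CSR

lemma inc_mk_mk (v w : Fin 3 → ℝ) (hv : v ≠ 0) (hw : w ≠ 0) :
    inc (Projectivization.mk ℝ v hv) (Projectivization.mk ℝ w hw) ↔
      v 0 * w 0 + v 1 * w 1 + v 2 * w 2 = 0 := by
  rw [inc_orth, Projectivization.orthogonal_mk]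
  simp [dotProduct, Fin.sum_univ_three]

/-- the `j`-th side of the regular `N`-gon -/
def side (N j : ℕ) : PP :=
  Projectivization.mk ℝ ![cos (2 * (π * j / N)), sin (2 * (π * j / N)), -1] (by
    intro h; have := congrFun h 2; simp at this)

/-- the line through the centre in direction `π s / N` -/
def axis (N s : ℕ) : PP :=
  Projectivization.mk ℝ ![sin (π * s / N), -cos (π * s / N), 0] (by
    intro h
    have h0 := congrFun h 0
    have h1 := congrFun h 1
    simp at h0 h1
    have := sin_sq_add_cos_sq (π * s / N)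
    rw [h0, h1] at this
    norm_num at this)

/-- the intersection of two sides -/
def vtx (N j k : ℕ) : PP :=
  Projectivization.mk ℝ ![cos (π * j / N + π * k / N), sin (π * j / N + π * k / N),
    cos (π * j / N - π * k / N)] (by
    intro h
    have h0 := congrFun h 0
    have h1 := congrFun h 1
    simp at h0 h1
    have := sin_sq_add_cos_sq (π * j / N + π * k / N)
    rw [h0, h1] at this
    norm_num at this)

lemma sin_ne {N : ℕ} (hN : 0 < N) (x : ℤ) (hx : ¬ (N : ℤ) ∣ x) : sin (π * x / N) ≠ 0 := by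
  intro h
  rw [sin_eq_zero_iff] at h
  obtain ⟨n, hn⟩ := h
  apply hx
  have hN' : (N : ℝ) ≠ 0 := by positivity
  have hπ := pi_ne_zero
  have h2 : (n : ℝ) * N = x := by
    field_simp at hn
    linarith
  refine ⟨n, ?_⟩
  have h3 : ((n * N : ℤ) : ℝ) = ((x : ℤ) : ℝ) := by push_cast; exact h2
  have h4 : n * N = x := by exact_mod_cast h3
  rw [← h4]; ring

lemma sin_zero_of {N : ℕ} (hN : 0 < N) (x : ℤ) (hx : (N : ℤ) ∣ x) : sin (π * x / N) = 0 := by
  obtain ⟨n, rfl⟩ := hx
  rw [sin_eq_zero_iff]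
  refine ⟨n, ?_⟩
  have hN' : (N : ℝ) ≠ 0 := by positivity
  push_cast
  field_simp

lemma not_dvd_sub {N j k : ℕ} (hj : j < N) (hk : k < N) (h : j ≠ k) :
    ¬ (N : ℤ) ∣ ((j : ℤ) - k) := by
  intro hd
  have := Int.eq_zero_of_abs_lt_dvd hd (by rw [abs_lt]; constructor <;> omega)
  omega

lemma sin_sub_ne {N j k : ℕ} (hj : j < N) (hk : k < N) (h : j ≠ k) :
    sin (π * j / N - π * k / N) ≠ 0 := by
  have h1 := sin_ne (by omega : 0 < N) ((j : ℤ) - k) (not_dvd_sub hj hk h)
  have e : π * (((j : ℤ) - k : ℤ) : ℝ) / N = π * j / N - π * k / N := by push_cast; ring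
  rwa [e] at h1

lemma inc_vtx_side (N j k l : ℕ) : inc (vtx N j k) (side N l) ↔
    sin (π * j / N - π * l / N) * sin (π * k / N - π * l / N) = 0 := by
  unfold vtx side
  rw [inc_mk_mk]
  simp only [Matrix.cons_val_zero, Matrix.cons_val_one, Matrix.cons_val]
  have e : cos (π * j / N + π * k / N) * cos (2 * (π * l / N)) +
      sin (π * j / N + π * k / N) * sin (2 * (π * l / N)) +
      cos (π * j / N - π * k / N) * -1 =
      -2 * (sin (π * j / N - π * l / N) * sin (π * k / N - π * l / N)) := by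
    rw [← cos_sub, sin_sub, sin_sub, cos_sub, cos_sub, cos_add, sin_add, cos_two_mul, sin_two_mul]
    have h1 := sin_sq_add_cos_sq (π * l / N)
    linear_combination (2 * cos (π * j / N) * cos (π * k / N)) * h1
  rw [e]
  constructor
  · intro h; linarith
  · intro h; rw [h]; ring

lemma inc_vtx_axis (N j k s : ℕ) : inc (vtx N j k) (axis N s) ↔
    sin (π * s / N - (π * j / N + π * k / N)) = 0 := by
  unfold vtx axis
  rw [inc_mk_mk]
  simp only [Matrix.cons_val_zero, Matrix.cons_val_one, Matrix.cons_val]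
  rw [sin_sub]
  constructor
  · intro h; linarith
  · intro h; linarith

lemma inc_O_axis (N s : ℕ) : inc (pt 0 0) (axis N s) := by
  unfold axis
  rw [inc_pt]; simp

lemma not_inc_O_side (N j : ℕ) : ¬ inc (pt 0 0) (side N j) := by
  unfold side
  rw [inc_pt]; simp

lemma side_ne {N j k : ℕ} (hj : j < N) (hk : k < N) (h : j ≠ k) : side N j ≠ side N k := by
  intro he
  have h1 : inc (vtx N j j) (side N j) := by rw [inc_vtx_side]; simp
  rw [he, inc_vtx_side] at h1
  exact mul_ne_zero (sin_sub_ne hj hk h) (sin_sub_ne hj hk h) h1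

lemma axis_ne {N s t : ℕ} (hs : s < N) (ht : t < N) (h : s ≠ t) : axis N s ≠ axis N t := by
  intro he
  have h1 : inc (vtx N s 0) (axis N s) := by rw [inc_vtx_axis]; simp
  rw [he, inc_vtx_axis] at h1
  have h2 := sin_sub_ne ht hs (Ne.symm h)
  apply h2
  have e : π * (t : ℝ) / N - (π * s / N + π * (0 : ℕ) / N) = π * t / N - π * s / N := by
    push_cast; ring
  rwa [e] at h1

lemma side_ne_axis (N j s : ℕ) : side N j ≠ axis N s := by
  intro h
  exact not_inc_O_side N j (h ▸ inc_O_axis N s)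

lemma vtx_eq {N j k : ℕ} (hj : j < N) (hk : k < N) (h : j ≠ k) {q : PP}
    (h1 : inc q (side N j)) (h2 : inc q (side N k)) : q = vtx N j k := by
  refine uniq h1 h2 ?_ ?_ (side_ne hj hk h)
  · rw [inc_vtx_side]; simp
  · rw [inc_vtx_side]; simp

lemma inc_vtx_side' {N j k l : ℕ} (hj : j < N) (hk : k < N) (hl : l < N)
    (h : inc (vtx N j k) (side N l)) : l = j ∨ l = k := by
  by_contra hc
  push Not at hc
  rw [inc_vtx_side] at h
  exact mul_ne_zero (sin_sub_ne hj hl (Ne.symm hc.1)) (sin_sub_ne hk hl (Ne.symm hc.2)) h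

lemma inc_vtx_axis' {N j k s : ℕ} (hs : s < N) :
    inc (vtx N j k) (axis N s) ↔ (j + k) % N = s := by
  have hN : 0 < N := by omega
  rw [inc_vtx_axis]
  have e : π * (s : ℝ) / N - (π * j / N + π * k / N) = π * (((s : ℤ) - (j + k) : ℤ) : ℝ) / N := by
    push_cast; ring
  rw [e]
  have key : ((N : ℤ) ∣ (s : ℤ) - (j + k)) ↔ (j + k) % N = s := by
    rw [← Int.modEq_iff_dvd]
    unfold Int.ModEq
    rw [Int.emod_eq_of_lt (by omega : (0 : ℤ) ≤ s) (by omega)]
    norm_cast
  rw [← key]
  constructor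
  · intro h
    by_contra hc
    exact sin_ne hN _ hc h
  · intro h
    exact sin_zero_of hN _ h

end Pool.Agent.R163.FV
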